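import Pool.Agent.H73.UW.Rec

/-!
# Mixtures of distributions on up-sets of a union-closed family
-/

set_option autoImplicit false

open Finset Real
open scoped FinsetFamily

namespace Pool.Agent.H73.UW

open Pool.Agent.H4.UC (cop D0 psd_D0 main_ineq tau lt_tau)

variable {α : Type*} [DecidableEq α]

/-- `U` is an up-set of the family `A` -/
def Up (A U : Finset (Finset α)) : Prop := U ⊆ A ∧ ∀ X ∈ U, ∀ Y ∈ A, X ⊆ Y → Y ∈ U

/-- The bilinear bound. -/
theorem mix_bound {A : Finset (Finset α)} (hA : ∀ X ∈ A, ∀ Y ∈ A, X ∪ Y ∈ A)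
    {ι : Type} [Fintype ι] (w : ι → Finset α → ℝ) (U : ι → Finset (Finset α)) (c : ι → ℝ)
    (hc : ∀ i, 0 ≤ c i) (hw : ∀ i S, 0 ≤ w i S) (hpos : ∀ i, 0 < tot A (w i))
    (hU : ∀ i, Up A (U i)) (hsp : ∀ i, sp A (w i) ⊆ U i) (Q : ℝ)
    (hQ : ∀ x ∈ A.sup id, Q ≤ ∑ i, c i * pr A x (w i)) :
    Q * ∑ j, c j * ent A (w j) ≤
      tau * ∑ i, ∑ j, c i * c j * min (log (U i).card) (log (U j).card) := by
  set l := (A.sup id).toList with hl
  have hne : ∀ i, (sp A (w i)).Nonempty := fun i => (tot_pos_iff A (hw i)).1 (hpos i)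
  have hag : ∀ i, Agree l (sp A (w i)) := by
    intro i X hX Y hY x hx
    rw [hl, Finset.mem_toList] at hx
    have h1 : x ∉ X := fun h => hx (Finset.mem_sup.2 ⟨X, (Finset.mem_filter.1 hX).1, h⟩)
    have h2 : x ∉ Y := fun h => hx (Finset.mem_sup.2 ⟨Y, (Finset.mem_filter.1 hY).1, h⟩)
    exact iff_of_false h1 h2
  have hsub1 : ∀ i j, sp A (w i) ⊻ sp A (w j) ⊆ U i := by
    intro i j Z hZ
    rw [Finset.mem_sups] at hZ
    obtain ⟨X, hX, Y, hY, rfl⟩ := hZ
    exact (hU i).2 X (hsp i hX) _ (hA X (Finset.mem_filter.1 hX).1 Y (Finset.mem_filter.1 hY).1)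
      Finset.subset_union_left
  have hsub2 : ∀ i j, sp A (w i) ⊻ sp A (w j) ⊆ U j := by
    intro i j Z hZ
    rw [Finset.mem_sups] at hZ
    obtain ⟨X, hX, Y, hY, rfl⟩ := hZ
    exact (hU j).2 Y (hsp j hY) _ (hA X (Finset.mem_filter.1 hX).1 Y (Finset.mem_filter.1 hY).1)
      Finset.subset_union_right
  obtain ⟨M, hM⟩ : ∃ M : ι → ι → ℝ, M = fun i j => min (log (U i).card) (log (U j).card) :=
    ⟨_, rfl⟩
  have hup : ∀ k', 0 ≤ k' → k' ≤ 1 → ∀ i j,
      R A k' (fun p q => binEntropy (cop k' p q)) l (w i) (w j) ≤ M i j := by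
    intro k' h0 h1 i j
    have h2 := R_le_log A h0 h1 l (w i) (w j) (hw i) (hw j) (hpos i) (hpos j)
    have h3 : (0 : ℝ) < (sp A (w i) ⊻ sp A (w j)).card := by
      exact_mod_cast ((hne i).sups (hne j)).card_pos
    rw [hM]
    refine le_min ?_ ?_
    · exact h2.trans (log_le_log h3 (by exact_mod_cast Finset.card_le_card (hsub1 i j)))
    · exact h2.trans (log_le_log h3 (by exact_mod_cast Finset.card_le_card (hsub2 i j)))
  have hk : (0 : ℝ) ≤ 1 / 2 := by norm_num
  have hk1 : (1 / 2 : ℝ) ≤ 1 := by norm_num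
  have h1 : ∀ i j, R A (1 / 2) D0 l (w i) (w j) ≤ (1 - 2 * (38288 / 100000)) * M i j := by
    intro i j
    refine (R_mono A hk hk1 (fun x y h0 h1 h2 h3 => main_ineq h0 h1 h2 h3) l (w i) (w j)
      (hw i) (hw j)).trans ?_
    rw [R_smul]
    exact mul_le_mul_of_nonneg_left (hup _ hk hk1 i j) (by norm_num)
  have hcc : ∀ i j, 0 ≤ c i * c j := fun i j => mul_nonneg (hc i) (hc j)
  have h2 : ∑ i, ∑ j, c i * c j * R A 0 D0 l (w i) (w j) ≤
      (1 - 2 * (38288 / 100000)) * ∑ i, ∑ j, c i * c j * M i j := by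
    refine (psd_le A psd_D0 hk l ι inferInstance w c hw).trans ?_
    rw [Finset.mul_sum]
    refine Finset.sum_le_sum fun i _ => ?_
    rw [Finset.mul_sum]
    refine Finset.sum_le_sum fun j _ => ?_
    have h3 := mul_le_mul_of_nonneg_left (h1 i j) (hcc i j)
    linarith
  have h3 : ∀ i j, W A l (fun y => pr A y (w i)) (w j) + W A l (fun y => pr A y (w j)) (w i) ≤
      M i j + R A 0 D0 l (w i) (w j) := by
    intro i j
    have h3 := hup 0 le_rfl zero_le_one i j
    have e : (fun p q : ℝ => binEntropy (cop 0 p q)) =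
        fun p q => (p * binEntropy q + q * binEntropy p) - D0 p q := by
      funext p q
      unfold D0 cop
      have : p * q * (1 + 0 * (1 - p) * (1 - q)) = p * q := by ring
      rw [this]; ring
    rw [e, R_sub, R_add] at h3
    have h4 := R_zero_left A l (w i) (w j) (hw i)
    have h5 : R A 0 (fun p q : ℝ => q * binEntropy p) l (w i) (w j) =
        W A l (fun y => pr A y (w j)) (w i) := by
      rw [← R_zero_left A l (w j) (w i) (hw j)]
      exact R_swap A 0 (fun p q => p * binEntropy q) l (w i) (w j)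
    rw [h4, h5] at h3
    linarith
  have h4 : ∑ i, ∑ j, c i * c j * W A l (fun y => pr A y (w i)) (w j) ≤
      tau * ∑ i, ∑ j, c i * c j * M i j := by
    have h5 : ∑ i, ∑ j, c i * c j * W A l (fun y => pr A y (w j)) (w i) =
        ∑ i, ∑ j, c i * c j * W A l (fun y => pr A y (w i)) (w j) := by
      rw [Finset.sum_comm]
      refine Finset.sum_congr rfl fun i _ => Finset.sum_congr rfl fun j _ => ?_
      ring
    have h6 : ∑ i, ∑ j, (c i * c j * W A l (fun y => pr A y (w i)) (w j) +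
        c i * c j * W A l (fun y => pr A y (w j)) (w i)) ≤
        ∑ i, ∑ j, (c i * c j * M i j + c i * c j * R A 0 D0 l (w i) (w j)) := by
      refine Finset.sum_le_sum fun i _ => Finset.sum_le_sum fun j _ => ?_
      have h7 := mul_le_mul_of_nonneg_left (h3 i j) (hcc i j)
      linarith
    simp only [Finset.sum_add_distrib] at h6
    rw [h5] at h6
    have h7 : tau = 1 - 38288 / 100000 := by unfold tau; norm_num
    rw [h7]
    linarith
  have h5 : Q * ∑ j, c j * ent A (w j) ≤
      ∑ i, ∑ j, c i * c j * W A l (fun y => pr A y (w i)) (w j) := by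
    rw [Finset.sum_comm, Finset.mul_sum]
    refine Finset.sum_le_sum fun j _ => ?_
    have h6 : Q * ent A (w j) ≤ ∑ i, c i * W A l (fun y => pr A y (w i)) (w j) := by
      rw [← chain A l (w j) (hw j) (hpos j) (hag j), ← W_sum]
      apply W_ge A l _ Q _ (w j) (hw j)
      intro x hx
      rw [hl, Finset.mem_toList] at hx
      exact hQ x hx
    have h7 := mul_le_mul_of_nonneg_left h6 (hc j)
    have h8 : c j * ∑ i, c i * W A l (fun y => pr A y (w i)) (w j) =
        ∑ i, c i * c j * W A l (fun y => pr A y (w i)) (w j) := by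
      rw [Finset.mul_sum]
      refine Finset.sum_congr rfl fun i _ => ?_
      ring
    rw [← h8]
    linarith
  rw [hM] at h4
  exact h5.trans h4

/-- The symmetrised inequality between means. -/
lemma sym_ineq {ι : Type} [Fintype ι] (c a L : ι → ℝ) (hc : ∀ i, 0 ≤ c i) (ha : ∀ i, 0 < a i)
    (hL : ∀ i, 0 ≤ L i) :
    ∑ i, ∑ j, c i * c j * min (L i) (L j) ≤ (∑ i, c i * (L i / a i)) * ∑ j, c j * a j := by
  have h1 : (∑ i, c i * (L i / a i)) * ∑ j, c j * a j =
      ∑ i, ∑ j, c i * c j * (L i * a j / a i) := by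
    rw [Finset.sum_mul_sum]
    refine Finset.sum_congr rfl fun i _ => Finset.sum_congr rfl fun j _ => ?_
    ring
  have h2 : ∑ i, ∑ j, c i * c j * (L i * a j / a i) =
      ∑ i, ∑ j, c i * c j * (L j * a i / a j) := by
    rw [Finset.sum_comm]
    refine Finset.sum_congr rfl fun i _ => Finset.sum_congr rfl fun j _ => ?_
    ring
  have h3 : ∑ i, ∑ j, 2 * (c i * c j * min (L i) (L j)) ≤
      ∑ i, ∑ j, (c i * c j * (L i * a j / a i) + c i * c j * (L j * a i / a j)) := by
    refine Finset.sum_le_sum fun i _ => Finset.sum_le_sum fun j _ => ?_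
    have hi := ha i
    have hj := ha j
    have hm0 : 0 ≤ min (L i) (L j) := le_min (hL i) (hL j)
    have h4 : 2 * min (L i) (L j) ≤ L i * a j / a i + L j * a i / a j := by
      have h5 : 2 ≤ a j / a i + a i / a j := by
        rw [div_add_div _ _ hi.ne' hj.ne', le_div_iff₀ (mul_pos hi hj)]
        nlinarith [sq_nonneg (a i - a j)]
      have h6 : min (L i) (L j) * (a j / a i) ≤ L i * a j / a i := by
        rw [mul_div_assoc]
        exact mul_le_mul_of_nonneg_right (min_le_left _ _) (by positivity)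
      have h7 : min (L i) (L j) * (a i / a j) ≤ L j * a i / a j := by
        rw [mul_div_assoc]
        exact mul_le_mul_of_nonneg_right (min_le_right _ _) (by positivity)
      have h8 := mul_le_mul_of_nonneg_left h5 hm0
      linarith
    have h9 := mul_le_mul_of_nonneg_left h4 (mul_nonneg (hc i) (hc j))
    linarith
  simp only [Finset.sum_add_distrib, ← Finset.mul_sum] at h3
  rw [← h2] at h3
  rw [h1]
  linarith

/-- Some point is missed rarely on average. -/
theorem mix_exists {A : Finset (Finset α)} (hA : ∀ X ∈ A, ∀ Y ∈ A, X ∪ Y ∈ A)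
    (hne : (A.sup id).Nonempty) {ι : Type} [Fintype ι] (w : ι → Finset α → ℝ)
    (U : ι → Finset (Finset α)) (c : ι → ℝ) (hc : ∀ i, 0 ≤ c i) (hc1 : ∑ i, c i = 1)
    (hw : ∀ i S, 0 ≤ w i S) (hpos : ∀ i, 0 < tot A (w i)) (hU : ∀ i, Up A (U i))
    (hsp : ∀ i, sp A (w i) ⊆ U i) (hent : ∀ i, 0 < ent A (w i)) :
    ∃ x ∈ A.sup id, ∑ i, c i * pr A x (w i) ≤
      ∑ i, c i * (tau * (log (U i).card / ent A (w i))) := by
  obtain ⟨x, hx, hmin⟩ := exists_min_image (A.sup id) (fun x => ∑ i, c i * pr A x (w i)) hne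
  refine ⟨x, hx, ?_⟩
  have h1 := mix_bound hA w U c hc hw hpos hU hsp _ hmin
  have h2 := sym_ineq c (fun i => ent A (w i)) (fun i => log (U i).card) hc hent
    (fun i => log_natCast_nonneg _)
  have hE : 0 < ∑ j, c j * ent A (w j) := by
    have h3 : ∃ i ∈ univ, 0 < c i := by
      by_contra hcon
      push Not at hcon
      have h4 : ∑ i, c i ≤ 0 := Finset.sum_nonpos hcon
      rw [hc1] at h4
      linarith
    obtain ⟨i, hi, hci⟩ := h3
    exact Finset.sum_pos' (fun j _ => mul_nonneg (hc j) (hent j).le)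
      ⟨i, hi, mul_pos hci (hent i)⟩
  have ht : (0 : ℝ) ≤ tau := by linarith [lt_tau]
  have h3 := h1.trans (mul_le_mul_of_nonneg_left h2 ht)
  rw [← mul_assoc] at h3
  have h4 := le_of_mul_le_mul_right h3 hE
  refine h4.trans (le_of_eq ?_)
  rw [Finset.mul_sum]
  refine Finset.sum_congr rfl fun i _ => ?_
  ring

/-- A theorem of the alternative. -/
theorem ville (s : Finset α) (hs : s.Nonempty) (V : Set (α → ℝ))
    (h : ∀ (ι : Type) (_ : Fintype ι) (c : ι → ℝ) (z : ι → α → ℝ), (∀ i, 0 ≤ c i) →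
      ∑ i, c i = 1 → (∀ i, z i ∈ V) → ∃ x ∈ s, 0 ≤ ∑ i, c i * z i x) :
    ∃ c : α → ℝ, (∀ x, 0 ≤ c x) ∧ ∑ x ∈ s, c x = 1 ∧ ∀ v ∈ V, 0 ≤ ∑ x ∈ s, c x * v x := by
  rcases V.eq_empty_or_nonempty with hV | ⟨v0, hv0⟩
  · obtain ⟨x0, hx0⟩ := hs
    refine ⟨fun x => if x = x0 then 1 else 0, fun x => by dsimp only; split_ifs <;> norm_num, ?_, ?_⟩
    · rw [Finset.sum_ite_eq' s x0]
      simp [hx0]
    · intro v hv
      rw [hV] at hv
      exact absurd hv (Set.notMem_empty v)
  obtain ⟨K0, hK0⟩ : ∃ K0 : Set (s → ℝ), K0 = (fun (v : α → ℝ) (y : s) => v y) '' V := ⟨_, rfl⟩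
  obtain ⟨O, hO⟩ : ∃ O : Set (s → ℝ), O = Set.univ.pi (fun _ => Set.Iio (0 : ℝ)) := ⟨_, rfl⟩
  have memO : ∀ a : s → ℝ, a ∈ O ↔ ∀ y, a y < 0 := by
    intro a
    rw [hO]
    simp
  have hOc : Convex ℝ O := by
    rw [hO]
    exact convex_pi fun _ _ => convex_Iio 0
  have hOo : IsOpen O := by
    rw [hO]
    exact isOpen_set_pi Set.finite_univ fun _ _ => isOpen_Iio
  have hdis : Disjoint O (convexHull ℝ K0) := by
    rw [Set.disjoint_left]
    intro a ha hK
    rw [mem_convexHull_iff_exists_fintype] at hK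
    obtain ⟨ι, hι, c, z, h1, h2, h3, h4⟩ := hK
    have h5 : ∀ i, ∃ v ∈ V, (fun (y : s) => v y) = z i := by
      intro i
      have := h3 i
      rw [hK0] at this
      exact this
    choose v hv hvz using h5
    obtain ⟨x, hx, h6⟩ := h ι hι c v h1 h2 hv
    have h7 : a ⟨x, hx⟩ = ∑ i, c i * v i x := by
      rw [← h4, Finset.sum_apply]
      refine Finset.sum_congr rfl fun i _ => ?_
      rw [Pi.smul_apply, smul_eq_mul, ← hvz i]
    have h8 := (memO a).1 ha ⟨x, hx⟩
    linarith
  obtain ⟨f, u, hf1, hf2⟩ := geometric_hahn_banach_open hOc hOo (convex_convexHull ℝ K0) hdis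
  obtain ⟨b, hb⟩ : ∃ b : s → ℝ, b = fun y => f (Pi.single y 1) := ⟨_, rfl⟩
  have hfe : ∀ a : s → ℝ, f a = ∑ y, b y * a y := by
    intro a
    have h1 : a = ∑ y, a y • (Pi.single y (1 : ℝ) : s → ℝ) := by
      funext z
      rw [Finset.sum_apply]
      simp only [Pi.smul_apply, smul_eq_mul]
      rw [Finset.sum_eq_single z]
      · simp
      · intro y _ hyz
        rw [Pi.single_eq_of_ne (Ne.symm hyz), mul_zero]
      · intro hz
        exact absurd (Finset.mem_univ z) hz
    conv_lhs => rw [h1]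
    rw [map_sum]
    refine Finset.sum_congr rfl fun y _ => ?_
    rw [map_smul, smul_eq_mul, hb, mul_comm]
  have hu : 0 ≤ u := by
    by_contra hcon
    push Not at hcon
    obtain ⟨B, hB⟩ : ∃ B, B = ∑ y, b y := ⟨_, rfl⟩
    have h1 : ∀ ε : ℝ, 0 < ε → -ε * B < u := by
      intro ε hε
      have h2 := hf1 (fun _ => -ε) ((memO _).2 fun _ => by linarith)
      rw [hfe, ← Finset.sum_mul, ← hB] at h2
      linarith
    have h3 := h1 (-u / (2 * (|B| + 1))) (div_pos (by linarith) (by positivity))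
    have h4 : |B| / (|B| + 1) ≤ 1 := by
      rw [div_le_one (by positivity)]
      linarith
    have h5 : B ≤ |B| := le_abs_self B
    have h6 : 0 ≤ |B| := abs_nonneg B
    have h7 : -(-u / (2 * (|B| + 1))) * B = u / 2 * (B / (|B| + 1)) := by
      field_simp
    rw [h7] at h3
    have h8 : B / (|B| + 1) ≤ 1 := by
      rw [div_le_one (by positivity)]
      linarith
    nlinarith
  have hb0 : ∀ y, 0 ≤ b y := by
    intro y
    by_contra hcon
    push Not at hcon
    obtain ⟨B, hB⟩ : ∃ B, B = ∑ y, b y := ⟨_, rfl⟩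
    have h1 : ∀ t : ℝ, 0 ≤ t → -B - t * b y < u := by
      intro t ht
      have h2 := hf1 (fun z => -1 - (if z = y then t else 0)) ((memO _).2 fun z => by
        split_ifs <;> linarith)
      rw [hfe] at h2
      have h3 : ∑ z, b z * (-1 - (if z = y then t else 0)) = -B - t * b y := by
        simp only [mul_sub, Finset.sum_sub_distrib, mul_ite, mul_zero]
        rw [Finset.sum_ite_eq' univ y]
        simp only [Finset.mem_univ, if_true]
        rw [← Finset.sum_mul, ← hB]
        ring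
      rw [h3] at h2
      exact h2
    have h2 := h1 ((|u| + |B|) / (-b y)) (div_nonneg (by positivity) (by linarith))
    have h3 : (|u| + |B|) / (-b y) * b y = -(|u| + |B|) := by
      have : b y ≠ 0 := hcon.ne
      field_simp
    rw [h3] at h2
    have h4 := le_abs_self u
    have h5 := le_abs_self B
    linarith
  have hBpos : 0 < ∑ y, b y := by
    refine lt_of_le_of_ne (Finset.sum_nonneg fun y _ => hb0 y) ?_
    intro h0
    have h1 : ∀ y, b y = 0 := by
      intro y
      exact (Finset.sum_eq_zero_iff_of_nonneg (fun y _ => hb0 y)).1 h0.symm y (Finset.mem_univ y)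
    have h2 := hf1 (fun _ => -1) ((memO _).2 fun _ => by norm_num)
    rw [hfe] at h2
    simp only [h1, zero_mul, Finset.sum_const_zero] at h2
    have h3 := hf2 (fun y => v0 y) (subset_convexHull ℝ K0 (by rw [hK0]; exact ⟨v0, hv0, rfl⟩))
    rw [hfe] at h3
    simp only [h1, zero_mul, Finset.sum_const_zero] at h3
    linarith
  obtain ⟨B, hB⟩ : ∃ B, B = ∑ y, b y := ⟨_, rfl⟩
  rw [← hB] at hBpos
  refine ⟨fun x => if hx : x ∈ s then b ⟨x, hx⟩ / B else 0, ?_, ?_, ?_⟩
  · intro x
    dsimp only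
    split_ifs with hx
    · exact div_nonneg (hb0 _) hBpos.le
    · exact le_rfl
  · rw [← Finset.sum_coe_sort s]
    have : ∀ y : s, (if hx : (y : α) ∈ s then b ⟨y, hx⟩ / B else 0) = b y / B := by
      intro y
      rw [dif_pos y.2]
    simp only [this]
    rw [← Finset.sum_div, ← hB, div_self hBpos.ne']
  · intro v hv
    rw [← Finset.sum_coe_sort s]
    have h1 : ∀ y : s, (if hx : (y : α) ∈ s then b ⟨y, hx⟩ / B else 0) * v y =
        b y * v y / B := by
      intro y
      rw [dif_pos y.2]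
      ring
    simp only [h1]
    rw [← Finset.sum_div]
    refine div_nonneg ?_ hBpos.le
    have h3 := hf2 (fun y => v y) (subset_convexHull ℝ K0 (by rw [hK0]; exact ⟨v, hv, rfl⟩))
    rw [hfe] at h3
    linarith

end Pool.Agent.H73.UW
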