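import Pool.Agent.H73.UW.Uni

/-!
Frequent points of union-closed families: one probability vector on the universe for all up-sets of
the family, all their subfamilies and all distributions.
-/

set_option autoImplicit false

namespace Pool.Agent.Results.MP_75f39d_co.FrequentPoint

/-- The family `A` is union-closed. -/
def UnionClosed {α : Type} [DecidableEq α] (A : Finset (Finset α)) : Prop :=
  ∀ X ∈ A, ∀ Y ∈ A, X ∪ Y ∈ A

/-- `U` is an up-set of the family `A`: it consists of members of `A` and contains every member of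
`A` which contains a member of `U`. -/
def UpSet {α : Type} (A U : Finset (Finset α)) : Prop :=
  U ⊆ A ∧ ∀ X ∈ U, ∀ Y ∈ A, X ⊆ Y → Y ∈ U

/-- `w` is a probability distribution on `U`. -/
def Distribution {α : Type} (U : Finset (Finset α)) (w : Finset α → ℝ) : Prop :=
  (∀ S, 0 ≤ w S) ∧ (∀ S, S ∉ U → w S = 0) ∧ ∑ S ∈ U, w S = 1

/-- The entropy of the distribution `w`. -/
noncomputable def entropy {α : Type} (U : Finset (Finset α)) (w : Finset α → ℝ) : ℝ :=
  ∑ S ∈ U, -(w S * Real.log (w S))

/-- The expected value of `c(S) = ∑ x ∈ S, c x` for a random member `S` with distribution `w`. -/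
def mean {α : Type} (U : Finset (Finset α)) (w : Finset α → ℝ) (c : α → ℝ) : ℝ :=
  ∑ S ∈ U, w S * ∑ x ∈ S, c x

/-- For every finite union-closed family `A` with a nonempty member there is a probability vector `c`
on the universe of `A` such that for every up-set `U` of `A`
* every random member of `U` with distribution `w` has `H(w) (1 - E c(S)) ≤ τ log |U|`;
* for every subfamily `I` of `U` with at least two members the average of `c(S)` over `I` is at least
  `1 - τ log |U| / log |I|`. -/
def Bound (τ : ℝ) : Prop :=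
  ∀ (α : Type) [DecidableEq α] (A : Finset (Finset α)), UnionClosed A → (∃ X ∈ A, X.Nonempty) →
    ∃ c : α → ℝ, (∀ x, 0 ≤ c x) ∧ ∑ x ∈ A.sup id, c x = 1 ∧ ∀ U, UpSet A U →
      (∀ w, Distribution U w → entropy U w * (1 - mean U w c) ≤ τ * Real.log U.card) ∧
      ∀ I ⊆ U, 2 ≤ I.card →
        (1 - τ * (Real.log U.card / Real.log I.card)) * I.card ≤ ∑ S ∈ I, ∑ x ∈ S, c x

/-- The bound holds with `0.61712` and fails with `0.6168`. -/
theorem result : Bound 0.61712 ∧ ¬ Bound 0.6168 := by
  constructor
  · intro α _ A hA ⟨X, hX, x, hx⟩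
    obtain ⟨c, h0, h1, h2⟩ := Pool.Agent.H73.UW.uniform hA ⟨x, Finset.mem_sup.2 ⟨X, hX, hx⟩⟩
    have ht : (0.61712 : ℝ) = Pool.Agent.H4.UC.tau := by
      unfold Pool.Agent.H4.UC.tau
      norm_num
    refine ⟨c, h0, h1, fun U hU => ?_⟩
    have h3 : ∀ w : Finset α → ℝ, (∀ S, 0 ≤ w S) → (∀ S, S ∉ U → w S = 0) → ∑ S ∈ U, w S = 1 →
        (∑ S ∈ U, Real.negMulLog (w S)) * (1 - ∑ S ∈ U, w S * ∑ x ∈ S, c x) ≤
          Pool.Agent.H4.UC.tau * Real.log U.card := h2 U hU
    refine ⟨fun w hw => ?_, fun I hI h4 => ?_⟩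
    · have h5 := h3 w hw.1 hw.2.1 hw.2.2
      have h6 : entropy U w = ∑ S ∈ U, Real.negMulLog (w S) := by
        unfold entropy Real.negMulLog
        refine Finset.sum_congr rfl fun S _ => ?_
        ring
      rw [h6, ht]
      exact h5
    · rw [ht]
      exact Pool.Agent.H73.UW.sub_of_uniform h3 hI h4
  · intro h
    obtain ⟨A, hA⟩ : ∃ A : Finset (Finset Unit), A = {∅, {()}} := ⟨_, rfl⟩
    have hne : (∅ : Finset Unit) ≠ {()} := by decide
    have huc : UnionClosed A := by
      intro X hX Y hY
      rw [hA] at hX hY ⊢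
      revert X Y
      decide
    obtain ⟨c, h0, h1, h2⟩ := h Unit A huc ⟨{()}, by rw [hA]; decide, by decide⟩
    have hs : A.sup id = {()} := by
      rw [hA]
      decide
    rw [hs, Finset.sum_singleton] at h1
    obtain ⟨w, hw⟩ : ∃ w : Finset Unit → ℝ, w = fun S => if () ∈ S then 3 / 10 else 7 / 10 :=
      ⟨_, rfl⟩
    have w0 : w ∅ = 7 / 10 := by
      rw [hw]
      simp
    have w1 : w {()} = 3 / 10 := by
      rw [hw]
      simp
    have hall : ∀ S : Finset Unit, S ∈ A := by
      intro S
      rw [hA]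
      revert S
      decide
    have h3 := (h2 A ⟨subset_rfl, fun _ _ Y hY _ => hY⟩).1 w ⟨fun S => by
        rw [hw]
        dsimp only
        split_ifs <;> norm_num, fun S hS => absurd (hall S) hS, by
        rw [hA, Finset.sum_pair hne, w0, w1]
        norm_num⟩
    have e1 : entropy A w = -(7 / 10 * Real.log (7 / 10)) + -(3 / 10 * Real.log (3 / 10)) := by
      unfold entropy
      rw [hA, Finset.sum_pair hne, w0, w1]
    have e2 : mean A w c = 3 / 10 := by
      unfold mean
      rw [hA, Finset.sum_pair hne, w0, w1, Finset.sum_empty, Finset.sum_singleton, h1]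
      norm_num
    have e3 : (A.card : ℝ) = 2 := by
      rw [hA, Finset.card_pair hne]
      norm_num
    rw [e1, e2, e3] at h3
    have l7 : Real.log (7 / 10) = Real.log 7 - Real.log 10 := Real.log_div (by norm_num) (by norm_num)
    have l3 : Real.log (3 / 10) = Real.log 3 - Real.log 10 := Real.log_div (by norm_num) (by norm_num)
    have key : (6168 : ℝ) * Real.log 2 + 2100 * Real.log 3 + 4900 * Real.log 7 <
        7000 * Real.log 10 := by
      have k1 : (((2 : ℝ) ^ 128) ^ 2 * 2) ^ 6 * ((3 : ℝ) ^ 175) ^ 3 * ((7 : ℝ) ^ 245) ^ 5 <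
          ((10 : ℝ) ^ 250) ^ 7 := by norm_num
      have a1 : Real.log ((((2 : ℝ) ^ 128) ^ 2 * 2) ^ 6) = 1542 * Real.log 2 := by
        rw [Real.log_pow, Real.log_mul (by positivity) (by norm_num), Real.log_pow, Real.log_pow]
        push_cast
        ring
      have a2 : Real.log (((3 : ℝ) ^ 175) ^ 3) = 525 * Real.log 3 := by
        rw [Real.log_pow, Real.log_pow]
        push_cast
        ring
      have a3 : Real.log (((7 : ℝ) ^ 245) ^ 5) = 1225 * Real.log 7 := by
        rw [Real.log_pow, Real.log_pow]
        push_cast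
        ring
      have a4 : Real.log (((10 : ℝ) ^ 250) ^ 7) = 1750 * Real.log 10 := by
        rw [Real.log_pow, Real.log_pow]
        push_cast
        ring
      have k2 := Real.log_lt_log (by positivity) k1
      rw [Real.log_mul (by positivity) (by positivity), Real.log_mul (by positivity) (by positivity),
        a1, a2, a3, a4] at k2
      linarith
    rw [l7, l3] at h3
    linarith

end Pool.Agent.Results.MP_75f39d_co.FrequentPoint
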