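import Pool.Agent.H4.UC.Sub

/-!
# Coupled exposure of two random members with arbitrary distributions

The weighted form of `Pool/Agent/H4/UC/Rec.lean`: the states are nonnegative functions on a finite
family `A` instead of subfamilies with the uniform distribution.
-/

set_option autoImplicit false

open Finset Real
open scoped FinsetFamily

namespace Pool.Agent.H73.UW

open Pool.Agent.H4.UC (cop cop_nonneg sub_cop_eq sub_cop_eq' one_sub_cop_eq sub_cop_nonneg
  sub_cop_nonneg' one_sub_cop_nonneg gibbs chain_step PSD sc D0 psd_D0 main_ineq)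

variable {α : Type*} [DecidableEq α]

/-- the part of `w` on the sets missing `x` -/
def c0 (x : α) (w : Finset α → ℝ) : Finset α → ℝ := fun S => if x ∈ S then 0 else w S

/-- the part of `w` on the sets containing `x` -/
def c1 (x : α) (w : Finset α → ℝ) : Finset α → ℝ := fun S => if x ∈ S then w S else 0

/-- total mass on `A` -/
noncomputable def tot (A : Finset (Finset α)) (w : Finset α → ℝ) : ℝ := ∑ S ∈ A, w S

/-- support in `A` -/
noncomputable def sp (A : Finset (Finset α)) (w : Finset α → ℝ) : Finset (Finset α) :=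
  A.filter (fun S => w S ≠ 0)

/-- probability of missing `x` -/
noncomputable def pr (A : Finset (Finset α)) (x : α) (w : Finset α → ℝ) : ℝ :=
  tot A (c0 x w) / tot A w

/-- expected sum of `F` along the coupled exposure -/
noncomputable def R (A : Finset (Finset α)) (k : ℝ) (F : ℝ → ℝ → ℝ) :
    List α → (Finset α → ℝ) → (Finset α → ℝ) → ℝ
  | [], _, _ => 0
  | (x :: l), w, v => F (pr A x w) (pr A x v)
      + cop k (pr A x w) (pr A x v) * R A k F l (c0 x w) (c0 x v)
      + (pr A x w - cop k (pr A x w) (pr A x v)) * R A k F l (c0 x w) (c1 x v)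
      + (pr A x v - cop k (pr A x w) (pr A x v)) * R A k F l (c1 x w) (c0 x v)
      + (1 - pr A x w - pr A x v + cop k (pr A x w) (pr A x v)) * R A k F l (c1 x w) (c1 x v)

/-- weighted sum of entropies -/
noncomputable def W (A : Finset (Finset α)) : List α → (α → ℝ) → (Finset α → ℝ) → ℝ
  | [], _, _ => 0
  | (x :: l), q, v => q x * binEntropy (pr A x v) + pr A x v * W A l q (c0 x v)
      + (1 - pr A x v) * W A l q (c1 x v)

/-! ## elementary facts -/

lemma c0_nonneg (x : α) {w : Finset α → ℝ} (hw : ∀ S, 0 ≤ w S) (S : Finset α) : 0 ≤ c0 x w S := by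
  unfold c0
  split_ifs
  · exact le_rfl
  · exact hw S

lemma c1_nonneg (x : α) {w : Finset α → ℝ} (hw : ∀ S, 0 ≤ w S) (S : Finset α) : 0 ≤ c1 x w S := by
  unfold c1
  split_ifs
  · exact hw S
  · exact le_rfl

lemma tot_nonneg (A : Finset (Finset α)) {w : Finset α → ℝ} (hw : ∀ S, 0 ≤ w S) : 0 ≤ tot A w :=
  Finset.sum_nonneg fun S _ => hw S

lemma tot_add (A : Finset (Finset α)) (x : α) (w : Finset α → ℝ) :
    tot A (c0 x w) + tot A (c1 x w) = tot A w := by
  unfold tot
  rw [← Finset.sum_add_distrib]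
  refine Finset.sum_congr rfl fun S _ => ?_
  unfold c0 c1
  split_ifs <;> simp

lemma pr_nonneg (A : Finset (Finset α)) (x : α) {w : Finset α → ℝ} (hw : ∀ S, 0 ≤ w S) :
    0 ≤ pr A x w := div_nonneg (tot_nonneg A (c0_nonneg x hw)) (tot_nonneg A hw)

lemma pr_le_one (A : Finset (Finset α)) (x : α) {w : Finset α → ℝ} (hw : ∀ S, 0 ≤ w S) :
    pr A x w ≤ 1 := by
  unfold pr
  apply div_le_one_of_le₀ _ (tot_nonneg A hw)
  have := tot_add A x w
  have := tot_nonneg A (c1_nonneg x hw)
  linarith

lemma one_sub_pr (A : Finset (Finset α)) (x : α) {w : Finset α → ℝ} (hw : 0 < tot A w) :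
    1 - pr A x w = tot A (c1 x w) / tot A w := by
  unfold pr
  rw [eq_div_iff hw.ne', sub_mul, div_mul_cancel₀ _ hw.ne', one_mul]
  linarith [tot_add A x w]

lemma tot_pos_iff (A : Finset (Finset α)) {w : Finset α → ℝ} (hw : ∀ S, 0 ≤ w S) :
    0 < tot A w ↔ (sp A w).Nonempty := by
  constructor
  · intro h
    rw [Finset.nonempty_iff_ne_empty]
    intro h1
    have h2 : tot A w = 0 := by
      unfold tot
      refine Finset.sum_eq_zero fun S hS => ?_
      by_contra h3
      have h4 : S ∈ sp A w := by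
        unfold sp
        rw [Finset.mem_filter]
        exact ⟨hS, h3⟩
      rw [h1] at h4
      exact absurd h4 (Finset.notMem_empty S)
    linarith
  · rintro ⟨S, hS⟩
    unfold sp at hS
    rw [Finset.mem_filter] at hS
    unfold tot
    refine Finset.sum_pos' (fun T _ => hw T) ⟨S, hS.1, lt_of_le_of_ne (hw S) (Ne.symm hS.2)⟩

lemma tot0_pos (A : Finset (Finset α)) {x : α} {w : Finset α → ℝ} (hw : ∀ S, 0 ≤ w S)
    (h : pr A x w ≠ 0) : 0 < tot A (c0 x w) := by
  refine lt_of_le_of_ne (tot_nonneg A (c0_nonneg x hw)) ?_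
  intro h0
  apply h
  unfold pr
  rw [← h0, zero_div]

lemma tot1_pos (A : Finset (Finset α)) {x : α} {w : Finset α → ℝ} (hw : ∀ S, 0 ≤ w S)
    (hp : 0 < tot A w) (h : pr A x w ≠ 1) : 0 < tot A (c1 x w) := by
  refine lt_of_le_of_ne (tot_nonneg A (c1_nonneg x hw)) ?_
  intro h0
  apply h
  have := one_sub_pr A x hp
  rw [← h0, zero_div] at this
  linarith

lemma sp_c0 (A : Finset (Finset α)) (x : α) (w : Finset α → ℝ) {S : Finset α} :
    S ∈ sp A (c0 x w) ↔ S ∈ sp A w ∧ x ∉ S := by
  unfold sp c0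
  rw [Finset.mem_filter, Finset.mem_filter]
  by_cases h : x ∈ S
  · simp [h]
  · simp [h]

lemma sp_c1 (A : Finset (Finset α)) (x : α) (w : Finset α → ℝ) {S : Finset α} :
    S ∈ sp A (c1 x w) ↔ S ∈ sp A w ∧ x ∈ S := by
  unfold sp c1
  rw [Finset.mem_filter, Finset.mem_filter]
  by_cases h : x ∈ S
  · simp [h]
  · simp [h]

lemma R_le_log (A : Finset (Finset α)) {k : ℝ} (hk : 0 ≤ k) (hk1 : k ≤ 1) (l : List α) :
    ∀ w v : Finset α → ℝ, (∀ S, 0 ≤ w S) → (∀ S, 0 ≤ v S) → 0 < tot A w → 0 < tot A v →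
      R A k (fun p q => binEntropy (cop k p q)) l w v ≤ log (sp A w ⊻ sp A v).card := by
  induction l with
  | nil =>
    intro w v hw hv h1 h2
    simp only [R]
    apply log_nonneg
    have : (sp A w ⊻ sp A v).Nonempty :=
      ((tot_pos_iff A hw).1 h1).sups ((tot_pos_iff A hv).1 h2)
    exact_mod_cast this.card_pos
  | cons x l ih =>
    intro w v hw hv hI hJ
    simp only [R]
    set p := pr A x w with hp
    set q := pr A x v with hq
    have p0 : 0 ≤ p := pr_nonneg A x hw
    have p1 : p ≤ 1 := pr_le_one A x hw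
    have q0 : 0 ≤ q := pr_nonneg A x hv
    have q1 : q ≤ 1 := pr_le_one A x hv
    set a := cop k p q with ha
    have a0 : 0 ≤ a := cop_nonneg hk p0 p1 q0 q1
    have b0 : 0 ≤ p - a := sub_cop_nonneg hk1 p0 p1 q0 q1
    have c0' : 0 ≤ q - a := sub_cop_nonneg' hk1 p0 p1 q0 q1
    have e0 : 0 ≤ 1 - p - q + a := one_sub_cop_nonneg hk p0 p1 q0 q1
    obtain ⟨M, hM⟩ : ∃ M, M = sp A w ⊻ sp A v := ⟨_, rfl⟩
    rw [← hM]
    have hmem : ∀ Z, Z ∈ M ↔ ∃ X ∈ sp A w, ∃ Y ∈ sp A v, X ⊔ Y = Z := by
      intro Z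
      rw [hM, Finset.mem_sups]
    obtain ⟨U0, hU0⟩ : ∃ U0, U0 = M.filter (fun X => x ∉ X) := ⟨_, rfl⟩
    obtain ⟨U1, hU1⟩ : ∃ U1, U1 = M.filter (fun X => x ∈ X) := ⟨_, rfl⟩
    have hcard : (U0.card : ℝ) + U1.card = M.card := by
      rw [hU0, hU1, add_comm]
      exact_mod_cast Finset.card_filter_add_card_filter_not (s := M) (fun X => x ∈ X)
    have s00 : sp A (c0 x w) ⊻ sp A (c0 x v) ⊆ U0 := by
      intro Z hZ
      rw [Finset.mem_sups] at hZ
      obtain ⟨X, hX, Y, hY, rfl⟩ := hZ
      rw [sp_c0] at hX hY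
      rw [hU0, Finset.mem_filter, hmem]
      exact ⟨⟨X, hX.1, Y, hY.1, rfl⟩, by simp [hX.2, hY.2]⟩
    have s01 : sp A (c0 x w) ⊻ sp A (c1 x v) ⊆ U1 := by
      intro Z hZ
      rw [Finset.mem_sups] at hZ
      obtain ⟨X, hX, Y, hY, rfl⟩ := hZ
      rw [sp_c0] at hX
      rw [sp_c1] at hY
      rw [hU1, Finset.mem_filter, hmem]
      exact ⟨⟨X, hX.1, Y, hY.1, rfl⟩, by simp [hY.2]⟩
    have s10 : sp A (c1 x w) ⊻ sp A (c0 x v) ⊆ U1 := by
      intro Z hZ
      rw [Finset.mem_sups] at hZ
      obtain ⟨X, hX, Y, hY, rfl⟩ := hZ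
      rw [sp_c1] at hX
      rw [sp_c0] at hY
      rw [hU1, Finset.mem_filter, hmem]
      exact ⟨⟨X, hX.1, Y, hY.1, rfl⟩, by simp [hX.2]⟩
    have s11 : sp A (c1 x w) ⊻ sp A (c1 x v) ⊆ U1 := by
      intro Z hZ
      rw [Finset.mem_sups] at hZ
      obtain ⟨X, hX, Y, hY, rfl⟩ := hZ
      rw [sp_c1] at hX hY
      rw [hU1, Finset.mem_filter, hmem]
      exact ⟨⟨X, hX.1, Y, hY.1, rfl⟩, by simp [hX.2]⟩
    have key : ∀ (c : ℝ) (P Q : Finset α → ℝ) (U : Finset (Finset α)), (∀ S, 0 ≤ P S) →
        (∀ S, 0 ≤ Q S) → 0 ≤ c → (c ≠ 0 → 0 < tot A P ∧ 0 < tot A Q) → sp A P ⊻ sp A Q ⊆ U →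
        c * R A k (fun p q => binEntropy (cop k p q)) l P Q ≤ c * log U.card := by
      intro c P Q U hPn hQn hc hne hsub
      rcases eq_or_ne c 0 with rfl | hc0
      · simp
      obtain ⟨hP, hQ⟩ := hne hc0
      apply mul_le_mul_of_nonneg_left _ hc
      refine (ih P Q hPn hQn hP hQ).trans ?_
      apply log_le_log
      · exact_mod_cast (((tot_pos_iff A hPn).1 hP).sups ((tot_pos_iff A hQn).1 hQ)).card_pos
      · exact_mod_cast Finset.card_le_card hsub
    have ne00 : a ≠ 0 → 0 < tot A (c0 x w) ∧ 0 < tot A (c0 x v) := by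
      intro h
      constructor
      · apply tot0_pos A hw
        intro h0; apply h; rw [ha, hp, h0]; simp [cop]
      · apply tot0_pos A hv
        intro h0; apply h; rw [ha, hq, h0]; simp [cop]
    have ne01 : p - a ≠ 0 → 0 < tot A (c0 x w) ∧ 0 < tot A (c1 x v) := by
      intro h
      rw [ha, sub_cop_eq] at h
      constructor
      · apply tot0_pos A hw
        intro h0; apply h; rw [hp, h0]; ring
      · apply tot1_pos A hv hJ
        intro h0; apply h; rw [hq, h0]; ring
    have ne10 : q - a ≠ 0 → 0 < tot A (c1 x w) ∧ 0 < tot A (c0 x v) := by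
      intro h
      rw [ha, sub_cop_eq'] at h
      constructor
      · apply tot1_pos A hw hI
        intro h0; apply h; rw [hp, h0]; ring
      · apply tot0_pos A hv
        intro h0; apply h; rw [hq, h0]; ring
    have ne11 : 1 - p - q + a ≠ 0 → 0 < tot A (c1 x w) ∧ 0 < tot A (c1 x v) := by
      intro h
      rw [ha, one_sub_cop_eq] at h
      constructor
      · apply tot1_pos A hw hI
        intro h0; apply h; rw [hp, h0]; ring
      · apply tot1_pos A hv hJ
        intro h0; apply h; rw [hq, h0]; ring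
    have hw0 := c0_nonneg x hw
    have hw1 := c1_nonneg x hw
    have hv0 := c0_nonneg x hv
    have hv1 := c1_nonneg x hv
    have k00 := key a _ _ U0 hw0 hv0 a0 ne00 s00
    have k01 := key (p - a) _ _ U1 hw0 hv1 b0 ne01 s01
    have k10 := key (q - a) _ _ U1 hw1 hv0 c0' ne10 s10
    have k11 := key (1 - p - q + a) _ _ U1 hw1 hv1 e0 ne11 s11
    have hau : a ≠ 0 → (0 : ℝ) < U0.card := by
      intro h
      obtain ⟨h1, h2⟩ := ne00 h
      exact_mod_cast ((((tot_pos_iff A hw0).1 h1).sups ((tot_pos_iff A hv0).1 h2)).mono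
        s00).card_pos
    have hav : a ≠ 1 → (0 : ℝ) < U1.card := by
      intro h
      by_contra hcon
      have hU1e : U1 = ∅ := by
        rw [← Finset.card_eq_zero]
        have h1 : (U1.card : ℝ) ≤ 0 := not_lt.1 hcon
        have h2 : U1.card ≤ 0 := by exact_mod_cast h1
        omega
      have z01 : p - a = 0 := by
        by_contra h'
        obtain ⟨h1, h2⟩ := ne01 h'
        have := (((tot_pos_iff A hw0).1 h1).sups ((tot_pos_iff A hv1).1 h2)).mono s01
        rw [hU1e] at this
        exact Finset.not_nonempty_empty this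
      have z10 : q - a = 0 := by
        by_contra h'
        obtain ⟨h1, h2⟩ := ne10 h'
        have := (((tot_pos_iff A hw1).1 h1).sups ((tot_pos_iff A hv0).1 h2)).mono s10
        rw [hU1e] at this
        exact Finset.not_nonempty_empty this
      have z11 : 1 - p - q + a = 0 := by
        by_contra h'
        obtain ⟨h1, h2⟩ := ne11 h'
        have := (((tot_pos_iff A hw1).1 h1).sups ((tot_pos_iff A hv1).1 h2)).mono s11
        rw [hU1e] at this
        exact Finset.not_nonempty_empty this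
      apply h
      linarith
    have hg := gibbs (u := U0.card) (v := U1.card) a0 (by linarith) (Nat.cast_nonneg _)
      (Nat.cast_nonneg _) hau hav
    rw [hcard] at hg
    linarith

/-! ## linearity and monotonicity -/

lemma R_mono (A : Finset (Finset α)) {k : ℝ} (hk : 0 ≤ k) (hk1 : k ≤ 1) {F G : ℝ → ℝ → ℝ}
    (hFG : ∀ p q, 0 ≤ p → p ≤ 1 → 0 ≤ q → q ≤ 1 → F p q ≤ G p q) (l : List α) :
    ∀ w v : Finset α → ℝ, (∀ S, 0 ≤ w S) → (∀ S, 0 ≤ v S) → R A k F l w v ≤ R A k G l w v := by
  induction l with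
  | nil => intro w v _ _; simp [R]
  | cons x l ih =>
    intro w v hw hv
    simp only [R]
    have p0 := pr_nonneg A x hw
    have p1 := pr_le_one A x hw
    have q0 := pr_nonneg A x hv
    have q1 := pr_le_one A x hv
    have hw0 := c0_nonneg x hw
    have hw1 := c1_nonneg x hw
    have hv0 := c0_nonneg x hv
    have hv1 := c1_nonneg x hv
    have h0 := hFG _ _ p0 p1 q0 q1
    have h1 := mul_le_mul_of_nonneg_left (ih (c0 x w) (c0 x v) hw0 hv0)
      (cop_nonneg hk p0 p1 q0 q1)
    have h2 := mul_le_mul_of_nonneg_left (ih (c0 x w) (c1 x v) hw0 hv1)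
      (sub_cop_nonneg hk1 p0 p1 q0 q1)
    have h3 := mul_le_mul_of_nonneg_left (ih (c1 x w) (c0 x v) hw1 hv0)
      (sub_cop_nonneg' hk1 p0 p1 q0 q1)
    have h4 := mul_le_mul_of_nonneg_left (ih (c1 x w) (c1 x v) hw1 hv1)
      (one_sub_cop_nonneg hk p0 p1 q0 q1)
    linarith

lemma R_add (A : Finset (Finset α)) (k : ℝ) (F G : ℝ → ℝ → ℝ) (l : List α) :
    ∀ w v : Finset α → ℝ,
      R A k (fun p q => F p q + G p q) l w v = R A k F l w v + R A k G l w v := by
  induction l with
  | nil => intro w v; simp [R]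
  | cons x l ih =>
    intro w v
    simp only [R, ih]
    ring

lemma R_sub (A : Finset (Finset α)) (k : ℝ) (F G : ℝ → ℝ → ℝ) (l : List α) :
    ∀ w v : Finset α → ℝ,
      R A k (fun p q => F p q - G p q) l w v = R A k F l w v - R A k G l w v := by
  induction l with
  | nil => intro w v; simp [R]
  | cons x l ih =>
    intro w v
    simp only [R, ih]
    ring

lemma R_smul (A : Finset (Finset α)) (k c : ℝ) (F : ℝ → ℝ → ℝ) (l : List α) :
    ∀ w v : Finset α → ℝ, R A k (fun p q => c * F p q) l w v = c * R A k F l w v := by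
  induction l with
  | nil => intro w v; simp [R]
  | cons x l ih =>
    intro w v
    simp only [R, ih]
    ring

lemma R_swap (A : Finset (Finset α)) (k : ℝ) (F : ℝ → ℝ → ℝ) (l : List α) :
    ∀ w v : Finset α → ℝ, R A k (fun p q => F q p) l w v = R A k F l v w := by
  induction l with
  | nil => intro w v; simp [R]
  | cons x l ih =>
    intro w v
    simp only [R, ih]
    have h : cop k (pr A x w) (pr A x v) = cop k (pr A x v) (pr A x w) := by unfold cop; ring
    rw [h]
    ring

/-! ## the independent coupling -/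

lemma c00 (x y : α) (w : Finset α → ℝ) : c0 y (c0 x w) = c0 x (c0 y w) := by
  funext S
  unfold c0
  split_ifs <;> rfl

lemma c01 (x y : α) (w : Finset α → ℝ) : c0 y (c1 x w) = c1 x (c0 y w) := by
  funext S
  simp only [c0, c1]
  split_ifs <;> rfl

lemma pr_total (A : Finset (Finset α)) (x y : α) {w : Finset α → ℝ} (hw : ∀ S, 0 ≤ w S) :
    pr A x w * pr A y (c0 x w) + (1 - pr A x w) * pr A y (c1 x w) = pr A y w := by
  rcases (tot_nonneg A hw).eq_or_lt with h0 | hpos
  · have h1 := tot_add A x w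
    have h2 := tot_nonneg A (c0_nonneg x hw)
    have h3 := tot_nonneg A (c1_nonneg x hw)
    have h4 : tot A (c1 x w) = 0 := by linarith
    unfold pr
    rw [← h0, h4]
    simp
  rw [one_sub_pr A x hpos]
  have e : ∀ v : Finset α → ℝ, (∀ S, 0 ≤ v S) →
      (tot A v / tot A w) * pr A y v = tot A (c0 y v) / tot A w := by
    intro v hv
    unfold pr
    rcases (tot_nonneg A hv).eq_or_lt with h | h
    · have h1 := tot_add A y v
      have h2 := tot_nonneg A (c0_nonneg y hv)
      have h3 := tot_nonneg A (c1_nonneg y hv)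
      have h4 : tot A (c0 y v) = 0 := by linarith
      rw [← h, h4]
      simp
    · field_simp
  have e0 := e (c0 x w) (c0_nonneg x hw)
  have e1 := e (c1 x w) (c1_nonneg x hw)
  have hp : pr A x w = tot A (c0 x w) / tot A w := rfl
  rw [hp, e0, e1, ← add_div]
  unfold pr
  congr 1
  rw [c00, c01]
  exact tot_add A x (c0 y w)

lemma W_lin (A : Finset (Finset α)) (l : List α) (a b : ℝ) (q r : α → ℝ) :
    ∀ v : Finset α → ℝ, W A l (fun x => a * q x + b * r x) v = a * W A l q v + b * W A l r v := by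
  induction l with
  | nil => intro v; simp [W]
  | cons x l ih =>
    intro v
    simp only [W, ih]
    ring

lemma W_sum (A : Finset (Finset α)) (l : List α) {ι : Type} (s : Finset ι) (c : ι → ℝ)
    (q : ι → α → ℝ) :
    ∀ v : Finset α → ℝ, W A l (fun x => ∑ i ∈ s, c i * q i x) v = ∑ i ∈ s, c i * W A l (q i) v := by
  induction l with
  | nil => intro v; simp [W]
  | cons x l ih =>
    intro v
    simp only [W, ih]
    rw [Finset.sum_mul, Finset.mul_sum, Finset.mul_sum, ← Finset.sum_add_distrib,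
      ← Finset.sum_add_distrib]
    refine Finset.sum_congr rfl fun i _ => ?_
    ring

lemma R_zero_left (A : Finset (Finset α)) (l : List α) :
    ∀ w v : Finset α → ℝ, (∀ S, 0 ≤ w S) →
      R A 0 (fun p q => p * binEntropy q) l w v = W A l (fun y => pr A y w) v := by
  induction l with
  | nil => intro w v _; simp [R, W]
  | cons x l ih =>
    intro w v hw
    have i1 := fun u => ih (c0 x w) u (c0_nonneg x hw)
    have i2 := fun u => ih (c1 x w) u (c1_nonneg x hw)
    simp only [R, W, i1, i2]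
    have hc : cop 0 (pr A x w) (pr A x v) = pr A x w * pr A x v := by unfold cop; ring
    rw [hc]
    have h0 : ∀ u : Finset α → ℝ, pr A x w * W A l (fun y => pr A y (c0 x w)) u
        + (1 - pr A x w) * W A l (fun y => pr A y (c1 x w)) u = W A l (fun y => pr A y w) u := by
      intro u
      rw [← W_lin]
      congr 1
      funext y
      exact pr_total A x y hw
    rw [← h0 (c0 x v), ← h0 (c1 x v)]
    ring

lemma W_nonneg (A : Finset (Finset α)) (l : List α) (q : α → ℝ) (hq : ∀ x ∈ l, 0 ≤ q x) :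
    ∀ v : Finset α → ℝ, (∀ S, 0 ≤ v S) → 0 ≤ W A l q v := by
  induction l with
  | nil => intro v _; simp [W]
  | cons x l ih =>
    intro v hv
    simp only [W]
    have h1 := ih (fun y hy => hq y (List.mem_cons_of_mem _ hy)) (c0 x v) (c0_nonneg x hv)
    have h2 := ih (fun y hy => hq y (List.mem_cons_of_mem _ hy)) (c1 x v) (c1_nonneg x hv)
    have h3 := hq x List.mem_cons_self
    have h4 := binEntropy_nonneg (pr_nonneg A x hv) (pr_le_one A x hv)
    have h5 := pr_nonneg A x hv
    have h6 : 0 ≤ 1 - pr A x v := by linarith [pr_le_one A x hv]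
    positivity

lemma W_ge (A : Finset (Finset α)) (l : List α) (q : α → ℝ) (q0 : ℝ) (hq : ∀ x ∈ l, q0 ≤ q x)
    (v : Finset α → ℝ) (hv : ∀ S, 0 ≤ v S) : q0 * W A l (fun _ => 1) v ≤ W A l q v := by
  have h := W_nonneg A l (fun x => 1 * q x + (-q0) * 1) (fun x hx => by linarith [hq x hx]) v hv
  rw [W_lin A l 1 (-q0) q (fun _ => 1)] at h
  linarith

/-! ## the chain rule -/

/-- the entropy of the distribution proportional to `w` on `A` -/
noncomputable def ent (A : Finset (Finset α)) (w : Finset α → ℝ) : ℝ :=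
  log (tot A w) - (∑ S ∈ A, w S * log (w S)) / tot A w

/-- the members of `J` agree outside `l` -/
def Agree (l : List α) (J : Finset (Finset α)) : Prop :=
  ∀ X ∈ J, ∀ Y ∈ J, ∀ x, x ∉ l → (x ∈ X ↔ x ∈ Y)

lemma Agree.c0 (A : Finset (Finset α)) {x : α} {l : List α} {w : Finset α → ℝ}
    (h : Agree (x :: l) (sp A w)) : Agree l (sp A (c0 x w)) := by
  intro X hX Y hY y hy
  rw [sp_c0] at hX hY
  by_cases hyx : y = x
  · subst hyx
    exact iff_of_false hX.2 hY.2
  · exact h X hX.1 Y hY.1 y (by simp [hyx, hy])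

lemma Agree.c1 (A : Finset (Finset α)) {x : α} {l : List α} {w : Finset α → ℝ}
    (h : Agree (x :: l) (sp A w)) : Agree l (sp A (c1 x w)) := by
  intro X hX Y hY y hy
  rw [sp_c1] at hX hY
  by_cases hyx : y = x
  · subst hyx
    exact iff_of_true hX.2 hY.2
  · exact h X hX.1 Y hY.1 y (by simp [hyx, hy])

omit [DecidableEq α] in
lemma Agree.card_le_one {J : Finset (Finset α)} (h : Agree ([] : List α) J) : J.card ≤ 1 := by
  rw [Finset.card_le_one]
  intro X hX Y hY
  ext x
  exact h X hX Y hY x (by simp)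

lemma esum_add (A : Finset (Finset α)) (x : α) (w : Finset α → ℝ) :
    (∑ S ∈ A, c0 x w S * log (c0 x w S)) + (∑ S ∈ A, c1 x w S * log (c1 x w S)) =
      ∑ S ∈ A, w S * log (w S) := by
  rw [← Finset.sum_add_distrib]
  refine Finset.sum_congr rfl fun S _ => ?_
  unfold c0 c1
  split_ifs <;> simp

omit [DecidableEq α] in
lemma esum_zero (A : Finset (Finset α)) {w : Finset α → ℝ} (hw : ∀ S, 0 ≤ w S)
    (h : tot A w = 0) : ∑ S ∈ A, w S * log (w S) = 0 := by
  unfold tot at h
  rw [Finset.sum_eq_zero_iff_of_nonneg (fun S _ => hw S)] at h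
  refine Finset.sum_eq_zero fun S hS => ?_
  rw [h S hS, zero_mul]

/-- chain rule -/
lemma chain (A : Finset (Finset α)) (l : List α) : ∀ v : Finset α → ℝ, (∀ S, 0 ≤ v S) →
    0 < tot A v → Agree l (sp A v) → W A l (fun _ => 1) v = ent A v := by
  induction l with
  | nil =>
    intro v hv hpos h
    have h1 := h.card_le_one
    obtain ⟨S0, hS0⟩ := (tot_pos_iff A hv).1 hpos
    have h2 : ∀ S ∈ A, S ≠ S0 → v S = 0 := by
      intro S hS hne
      by_contra h3
      have h4 : S ∈ sp A v := by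
        unfold sp
        rw [Finset.mem_filter]
        exact ⟨hS, h3⟩
      exact hne (Finset.card_le_one.1 h1 S h4 S0 hS0)
    unfold sp at hS0
    rw [Finset.mem_filter] at hS0
    have h5 : tot A v = v S0 := by
      unfold tot
      exact Finset.sum_eq_single S0 h2 (fun h6 => absurd hS0.1 h6)
    have h6 : ∑ S ∈ A, v S * log (v S) = v S0 * log (v S0) := by
      refine Finset.sum_eq_single S0 (fun S hS hne => ?_) (fun h6 => absurd hS0.1 h6)
      rw [h2 S hS hne, zero_mul]
    unfold ent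
    rw [h6, h5, mul_div_assoc, mul_comm, div_mul_cancel₀]
    · simp [W]
    · exact hS0.2
  | cons x l ih =>
    intro v hv hpos h
    simp only [W, one_mul]
    have hv0 := c0_nonneg x hv
    have hv1 := c1_nonneg x hv
    have hc := tot_add A x v
    have hu := tot_nonneg A hv0
    have hu1 := tot_nonneg A hv1
    have hE := esum_add A x v
    have key : ∀ u : Finset α → ℝ, (∀ S, 0 ≤ u S) → Agree l (sp A u) →
        (tot A u / tot A v) * W A l (fun _ => 1) u =
          (tot A u / tot A v) * log (tot A u) - (∑ S ∈ A, u S * log (u S)) / tot A v := by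
      intro u hun hag
      rcases (tot_nonneg A hun).eq_or_lt with h0 | h0
      · rw [esum_zero A hun h0.symm, ← h0]
        simp
      · rw [ih u hun h0 hag]
        unfold ent
        field_simp
    have k0 := key _ hv0 (h.c0 A)
    have k1 := key _ hv1 (h.c1 A)
    have hst := chain_step (a := pr A x v) hu hu1 (by rw [hc]; exact hpos) (by rw [hc]; rfl)
    have e1 : 1 - pr A x v = tot A (c1 x v) / tot A v := one_sub_pr A x hpos
    have e0 : pr A x v = tot A (c0 x v) / tot A v := rfl
    rw [e1] at hst ⊢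
    rw [hc] at hst
    rw [k1]
    have k0' : pr A x v * W A l (fun _ => 1) (c0 x v) =
        pr A x v * log (tot A (c0 x v)) -
          (∑ S ∈ A, c0 x v S * log (c0 x v S)) / tot A v := by
      rw [e0]
      exact k0
    rw [k0']
    unfold ent
    rw [← hE, add_div]
    linarith

/-! ## positive semidefinite kernels -/

/-- state after the bit `b` at `x` (`true` = present) -/
def nd (x : α) (b : Bool) (w : Finset α → ℝ) : Finset α → ℝ := if b then c1 x w else c0 x w

lemma nd_nonneg (x : α) (b : Bool) {w : Finset α → ℝ} (hw : ∀ S, 0 ≤ w S) (S : Finset α) :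
    0 ≤ nd x b w S := by
  unfold nd
  split_ifs
  · exact c1_nonneg x hw S
  · exact c0_nonneg x hw S

/-- mass of the bit -/
noncomputable def ms (p : ℝ) (b : Bool) : ℝ := if b then 1 - p else p

lemma R_cons (A : Finset (Finset α)) (k : ℝ) (F : ℝ → ℝ → ℝ) (x : α) (l : List α)
    (w v : Finset α → ℝ) :
    R A k F (x :: l) w v = F (pr A x w) (pr A x v) + ∑ b : Bool, ∑ b' : Bool,
      ms (pr A x w) b * ms (pr A x v) b' * (1 + k * sc (pr A x w) b * sc (pr A x v) b') *
        R A k F l (nd x b w) (nd x b' v) := by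
  simp only [R, Fintype.sum_bool, ms, sc, nd, if_true, Bool.false_eq_true, if_false]
  unfold cop
  ring

lemma psd_zero (A : Finset (Finset α)) {D : ℝ → ℝ → ℝ} (hD : PSD D) (l : List α) :
    ∀ (ι : Type) (_ : Fintype ι) (w : ι → Finset α → ℝ) (c : ι → ℝ), (∀ i S, 0 ≤ w i S) →
      0 ≤ ∑ i, ∑ j, c i * c j * R A 0 D l (w i) (w j) := by
  induction l with
  | nil => intro ι _ w c _; simp [R]
  | cons x l ih =>
    intro ι _ w c hw
    have h1 := hD ι inferInstance (fun i => pr A x (w i)) c
      (fun i => ⟨pr_nonneg A x (hw i), pr_le_one A x (hw i)⟩)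
    have h2 := ih (ι × Bool) inferInstance (fun z => nd x z.2 (w z.1))
      (fun z => c z.1 * ms (pr A x (w z.1)) z.2) (fun z S => nd_nonneg x z.2 (hw z.1) S)
    have e : ∑ i, ∑ j, c i * c j * R A 0 D (x :: l) (w i) (w j) =
        (∑ i, ∑ j, c i * c j * D (pr A x (w i)) (pr A x (w j))) +
        ∑ z : ι × Bool, ∑ z' : ι × Bool, c z.1 * ms (pr A x (w z.1)) z.2 *
          (c z'.1 * ms (pr A x (w z'.1)) z'.2) *
            R A 0 D l (nd x z.2 (w z.1)) (nd x z'.2 (w z'.1)) := by
      rw [Fintype.sum_prod_type, ← Finset.sum_add_distrib]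
      apply Finset.sum_congr rfl
      intro i _
      simp only [Fintype.sum_bool, Fintype.sum_prod_type]
      simp only [← Finset.sum_add_distrib]
      apply Finset.sum_congr rfl
      intro j _
      rw [R_cons]
      simp only [Fintype.sum_bool]
      ring
    rw [e]
    exact add_nonneg h1 h2

lemma psd_le (A : Finset (Finset α)) {D : ℝ → ℝ → ℝ} (hD : PSD D) {k : ℝ} (hk : 0 ≤ k)
    (l : List α) :
    ∀ (ι : Type) (_ : Fintype ι) (w : ι → Finset α → ℝ) (c : ι → ℝ), (∀ i S, 0 ≤ w i S) →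
      ∑ i, ∑ j, c i * c j * R A 0 D l (w i) (w j) ≤
        ∑ i, ∑ j, c i * c j * R A k D l (w i) (w j) := by
  induction l with
  | nil => intro ι _ w c _; simp [R]
  | cons x l ih =>
    intro ι _ w c hw
    have hnn : ∀ (z : ι × Bool) (S : Finset α), 0 ≤ nd x z.2 (w z.1) S :=
      fun z S => nd_nonneg x z.2 (hw z.1) S
    have h2 := ih (ι × Bool) inferInstance (fun z => nd x z.2 (w z.1))
      (fun z => c z.1 * ms (pr A x (w z.1)) z.2) hnn
    have h3 := ih (ι × Bool) inferInstance (fun z => nd x z.2 (w z.1))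
      (fun z => c z.1 * ms (pr A x (w z.1)) z.2 * sc (pr A x (w z.1)) z.2) hnn
    have h4 := psd_zero A hD l (ι × Bool) inferInstance (fun z => nd x z.2 (w z.1))
      (fun z => c z.1 * ms (pr A x (w z.1)) z.2 * sc (pr A x (w z.1)) z.2) hnn
    have h5 := mul_nonneg hk (h4.trans h3)
    have e : ∀ k' : ℝ, ∑ i, ∑ j, c i * c j * R A k' D (x :: l) (w i) (w j) =
        (∑ i, ∑ j, c i * c j * D (pr A x (w i)) (pr A x (w j))) +
        (∑ z : ι × Bool, ∑ z' : ι × Bool, c z.1 * ms (pr A x (w z.1)) z.2 *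
          (c z'.1 * ms (pr A x (w z'.1)) z'.2) *
            R A k' D l (nd x z.2 (w z.1)) (nd x z'.2 (w z'.1))) +
        k' * ∑ z : ι × Bool, ∑ z' : ι × Bool,
          c z.1 * ms (pr A x (w z.1)) z.2 * sc (pr A x (w z.1)) z.2 *
          (c z'.1 * ms (pr A x (w z'.1)) z'.2 * sc (pr A x (w z'.1)) z'.2) *
          R A k' D l (nd x z.2 (w z.1)) (nd x z'.2 (w z'.1)) := by
      intro k'
      rw [Finset.mul_sum, Fintype.sum_prod_type, Fintype.sum_prod_type, ← Finset.sum_add_distrib,
        ← Finset.sum_add_distrib]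
      apply Finset.sum_congr rfl
      intro i _
      simp only [Fintype.sum_bool, Fintype.sum_prod_type, Finset.mul_sum]
      simp only [← Finset.sum_add_distrib]
      apply Finset.sum_congr rfl
      intro j _
      rw [R_cons]
      simp only [Fintype.sum_bool]
      ring
    rw [e 0, e k]
    linarith

end Pool.Agent.H73.UW
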