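import Pool.Agent.H73.UW.Mix

/-!
# One probability vector for all up-sets and all distributions
-/

set_option autoImplicit false

open Finset Real
open scoped FinsetFamily

namespace Pool.Agent.H73.UW

open Pool.Agent.H4.UC (cop D0 psd_D0 main_ineq tau lt_tau)

variable {α : Type*} [DecidableEq α]

lemma sum_pr (A : Finset (Finset α)) {w : Finset α → ℝ} (h1 : ∑ S ∈ A, w S = 1) (c : α → ℝ)
    (hc : ∑ x ∈ A.sup id, c x = 1) :
    ∑ x ∈ A.sup id, c x * pr A x w = 1 - ∑ S ∈ A, w S * ∑ x ∈ S, c x := by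
  have h2 : ∀ x, pr A x w = 1 - ∑ S ∈ A, (if x ∈ S then w S else 0) := by
    intro x
    have h3 := tot_add A x w
    unfold pr
    have h4 : tot A w = 1 := h1
    have h5 : tot A (c1 x w) = ∑ S ∈ A, (if x ∈ S then w S else 0) := rfl
    rw [h4, h5] at h3
    rw [h4, div_one]
    linarith
  simp only [h2, mul_sub, mul_one, Finset.sum_sub_distrib, hc, Finset.mul_sum]
  congr 1
  rw [Finset.sum_comm]
  refine Finset.sum_congr rfl fun S hS => ?_
  have hsub : S ⊆ A.sup id := fun x hx => Finset.mem_sup.2 ⟨S, hS, hx⟩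
  rw [← Finset.sum_subset hsub (f := fun x => c x * (if x ∈ S then w S else 0))]
  · refine Finset.sum_congr rfl fun x hx => ?_
    rw [if_pos hx]
    ring
  · intro x _ hx
    rw [if_neg hx, mul_zero]

/-- One probability vector on the universe for all up-sets and all distributions. -/
theorem uniform {A : Finset (Finset α)} (hA : ∀ X ∈ A, ∀ Y ∈ A, X ∪ Y ∈ A)
    (hne : (A.sup id).Nonempty) :
    ∃ c : α → ℝ, (∀ x, 0 ≤ c x) ∧ ∑ x ∈ A.sup id, c x = 1 ∧
      ∀ U, Up A U → ∀ w : Finset α → ℝ, (∀ S, 0 ≤ w S) → (∀ S, S ∉ U → w S = 0) →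
        ∑ S ∈ U, w S = 1 →
        (∑ S ∈ U, negMulLog (w S)) * (1 - ∑ S ∈ U, w S * ∑ x ∈ S, c x) ≤ tau * log U.card := by
  obtain ⟨V, hV⟩ : ∃ V : Set (α → ℝ), V = {v | ∃ (U : Finset (Finset α)) (w : Finset α → ℝ),
      Up A U ∧ (∀ S, 0 ≤ w S) ∧ (∀ S, S ∉ U → w S = 0) ∧ ∑ S ∈ A, w S = 1 ∧ 0 < ent A w ∧
      v = fun x => tau * (log U.card / ent A w) - pr A x w} := ⟨_, rfl⟩
  obtain ⟨c, hc0, hc1, hc2⟩ := ville (A.sup id) hne V (by
    intro ι _ c z hc hc1 hz
    have h1 : ∀ i, ∃ (U : Finset (Finset α)) (w : Finset α → ℝ),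
        Up A U ∧ (∀ S, 0 ≤ w S) ∧ (∀ S, S ∉ U → w S = 0) ∧ ∑ S ∈ A, w S = 1 ∧ 0 < ent A w ∧
        z i = fun x => tau * (log U.card / ent A w) - pr A x w := by
      intro i
      have := hz i
      rw [hV] at this
      exact this
    choose U w hU hw hsp htot hent hzi using h1
    obtain ⟨x, hx, h2⟩ := mix_exists hA hne w U c hc hc1 hw
      (fun i => by
        have : tot A (w i) = 1 := htot i
        rw [this]
        exact one_pos) hU
      (fun i S hS => by
        by_contra h3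
        exact (Finset.mem_filter.1 hS).2 (hsp i S h3)) hent
    refine ⟨x, hx, ?_⟩
    have h3 : ∑ i, c i * z i x = ∑ i, c i * (tau * (log (U i).card / ent A (w i))) -
        ∑ i, c i * pr A x (w i) := by
      rw [← Finset.sum_sub_distrib]
      refine Finset.sum_congr rfl fun i _ => ?_
      rw [hzi i]
      ring
    rw [h3]
    linarith)
  refine ⟨c, hc0, hc1, ?_⟩
  intro U hU w hw hsp htot
  have hsumA : ∀ f : Finset α → ℝ, (∀ S, w S = 0 → f S = 0) → ∑ S ∈ A, f S = ∑ S ∈ U, f S := by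
    intro f hf
    refine (Finset.sum_subset hU.1 fun S _ hS => hf S (hsp S hS)).symm
  have h1 : ∑ S ∈ A, w S = 1 := by
    rw [hsumA w fun S h => h, htot]
  have h2 : ent A w = ∑ S ∈ U, negMulLog (w S) := by
    unfold ent
    have h3 : tot A w = 1 := h1
    rw [h3, log_one, div_one, zero_sub, ← Finset.sum_neg_distrib,
      hsumA (fun S => -(w S * log (w S))) (fun S h => by rw [h]; simp)]
    refine Finset.sum_congr rfl fun S _ => ?_
    unfold negMulLog
    ring
  have h3 : ∑ S ∈ A, w S * ∑ x ∈ S, c x = ∑ S ∈ U, w S * ∑ x ∈ S, c x :=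
    hsumA _ fun S h => by rw [h, zero_mul]
  have hL : 0 ≤ log (U.card : ℝ) := log_natCast_nonneg _
  have ht : (0 : ℝ) ≤ tau := by linarith [lt_tau]
  have hH : 0 ≤ ∑ S ∈ U, negMulLog (w S) := by
    refine Finset.sum_nonneg fun S hS => ?_
    refine negMulLog_nonneg (hw S) ?_
    rw [← htot]
    exact Finset.single_le_sum (fun T _ => hw T) hS
  rcases hH.eq_or_lt with h0 | hpos
  · rw [← h0, zero_mul]
    positivity
  · rw [← h2] at hpos ⊢
    have h4 := hc2 (fun x => tau * (log U.card / ent A w) - pr A x w) (by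
      rw [hV]
      exact ⟨U, w, hU, hw, hsp, h1, hpos, rfl⟩)
    have h5 : ∑ x ∈ A.sup id, c x * (tau * (log U.card / ent A w) - pr A x w) =
        tau * (log U.card / ent A w) - (1 - ∑ S ∈ U, w S * ∑ x ∈ S, c x) := by
      rw [← h3, ← sum_pr A h1 c hc1]
      simp only [mul_sub, Finset.sum_sub_distrib]
      rw [← Finset.sum_mul, hc1, one_mul]
    rw [h5] at h4
    have h6 : (1 - ∑ S ∈ U, w S * ∑ x ∈ S, c x) ≤ tau * (log U.card / ent A w) := by linarith
    calc ent A w * (1 - ∑ S ∈ U, w S * ∑ x ∈ S, c x)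
        ≤ ent A w * (tau * (log U.card / ent A w)) := mul_le_mul_of_nonneg_left h6 hpos.le
      _ = tau * log U.card := by
          field_simp

/-- The case of subfamilies. -/
theorem sub_of_uniform {U : Finset (Finset α)} {c : α → ℝ}
    (h : ∀ w : Finset α → ℝ, (∀ S, 0 ≤ w S) → (∀ S, S ∉ U → w S = 0) → ∑ S ∈ U, w S = 1 →
      (∑ S ∈ U, negMulLog (w S)) * (1 - ∑ S ∈ U, w S * ∑ x ∈ S, c x) ≤ tau * log U.card)
    {I : Finset (Finset α)} (hI : I ⊆ U) (h2 : 2 ≤ I.card) :
    (1 - tau * (log U.card / log I.card)) * I.card ≤ ∑ S ∈ I, ∑ x ∈ S, c x := by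
  have hIpos : (0 : ℝ) < I.card := by exact_mod_cast (by omega : 0 < I.card)
  have hlog : 0 < log (I.card : ℝ) := by
    apply Real.log_pos
    exact_mod_cast (by omega : 1 < I.card)
  obtain ⟨w, hw⟩ : ∃ w : Finset α → ℝ, w = fun S => if S ∈ I then (I.card : ℝ)⁻¹ else 0 :=
    ⟨_, rfl⟩
  have hwI : ∀ S ∈ I, w S = (I.card : ℝ)⁻¹ := by
    intro S hS
    rw [hw]
    exact if_pos hS
  have hwn : ∀ S, S ∉ I → w S = 0 := by
    intro S hS
    rw [hw]
    exact if_neg hS
  have hsum : ∀ f : Finset α → ℝ, (∀ S, S ∉ I → f S = 0) → ∑ S ∈ U, f S = ∑ S ∈ I, f S := by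
    intro f hf
    exact (Finset.sum_subset hI fun S _ hS => hf S hS).symm
  have h3 := h w
    (by
      intro S
      by_cases hS : S ∈ I
      · rw [hwI S hS]
        positivity
      · rw [hwn S hS])
    (fun S hS => hwn S fun h4 => hS (hI h4))
    (by
      rw [hsum w hwn, Finset.sum_congr rfl hwI, Finset.sum_const, nsmul_eq_mul,
        mul_inv_cancel₀ hIpos.ne'])
  have h4 : ∑ S ∈ U, negMulLog (w S) = log I.card := by
    rw [hsum _ (fun S hS => by rw [hwn S hS, negMulLog_zero])]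
    rw [Finset.sum_congr rfl (fun S hS => by rw [hwI S hS])]
    rw [Finset.sum_const, nsmul_eq_mul]
    unfold negMulLog
    rw [log_inv]
    field_simp
  have h5 : ∑ S ∈ U, w S * ∑ x ∈ S, c x = (∑ S ∈ I, ∑ x ∈ S, c x) / I.card := by
    rw [hsum _ (fun S hS => by rw [hwn S hS, zero_mul]), Finset.sum_div]
    refine Finset.sum_congr rfl fun S hS => ?_
    rw [hwI S hS]
    field_simp
  rw [h4, h5] at h3
  have h6 : 1 - (∑ S ∈ I, ∑ x ∈ S, c x) / I.card ≤ tau * (log U.card / log I.card) := by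
    rw [← mul_div_assoc, le_div_iff₀ hlog]
    linarith
  have h7 := mul_le_mul_of_nonneg_right h6 hIpos.le
  rw [sub_mul, div_mul_cancel₀ _ hIpos.ne'] at h7
  rw [sub_mul]
  linarith

end Pool.Agent.H73.UW
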